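import Pool.Agent.helper77.SK.Spec2

/-! Row TCE: the fifth derivative and the Taylor coefficient. -/

set_option autoImplicit false

namespace Pool.Agent.SK

open Polynomial Finset

theorem TCE : TCE_stmt := by
  intro p _ f a
  have h := congrFun (factorial_smul_hasseDeriv (R := ZMod p) 5) f
  have h1 : derivative (D4 f) = (⇑derivative)^[5] f := rfl
  have h2 : tc f a 5 = (hasseDeriv 5 f).eval a := taylor_coeff a f 5
  rw [h1, h2, ← h]
  show eval a ((Nat.factorial 5) • (hasseDeriv 5 f)) = _
  rw [eval_smul, nsmul_eq_mul]
  norm_num [Nat.factorial]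

end Pool.Agent.SK
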